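import Pool.Agent.Helper22.HV.FGZ
import Pool.Agent.Helper94.LN.EID

/-! # Sheet HV: square integral of the field of dipoles -/

set_option autoImplicit false

namespace Pool.Agent.Helper43.HV

open MeasureTheory Filter Topology Pool.Agent.Helper95.PW Pool.Agent.Helper95.LN
open Pool.Agent.Helper95.HV
open Pool.Agent.Helper76.LN.FF76 (pd_smooth pd_zero nr_nonneg nr_tri nr_comm norm_le_nr nr_cont
  comb comb_smooth comb_pd comb_lap pd_comm lap_pd lap_pd_ph et_int pd_sum3)
open Pool.Agent.Helper94.LN (eidE eidE_pos eidE_int eidE_tr chi chi_smooth chi_cs chi_01 chi_one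
  chi_pd eid_ibp eid_pd_mul eid_diff eid_contDiff_pd eid_pd_bd)

theorem eidE_le_one (w : R3) : eidE w ≤ 1 := by
  unfold eidE
  exact inv_le_one_of_one_le₀ (by linarith [norm_nonneg w])

/-- Green's formula for a function that decays -/
theorem grn (F : R3 → ℝ) (hF : ContDiff ℝ (⊤ : ℕ∞) F) (C : ℝ) (h0 : ∀ w, |F w| ≤ C * eidE w)
    (h1 : ∀ i w, |pd i F w| ≤ C * eidE w ^ 2) (hc : HasCompactSupport (lap F)) :
    (∀ i, Integrable (fun w => pd i F w ^ 2)) ∧
      ∑ i, ∫ w, pd i F w ^ 2 = -∫ w, F w * lap F w := by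
  have hC0 : 0 ≤ C := by
    have h := (abs_nonneg _).trans (h0 0)
    exact nonneg_of_mul_nonneg_left h (eidE_pos 0)
  have hcF : ∀ i, Continuous (pd i F) := fun i => (eid_contDiff_pd hF i).continuous
  have hlc : Continuous (lap F) := by
    have : lap F = fun w => ∑ i, pd i (pd i F) w := rfl
    rw [this]
    exact continuous_finsetSum _ fun i _ =>
      (eid_contDiff_pd (eid_contDiff_pd hF i) i).continuous
  have hint : ∀ i, Integrable (fun w => pd i F w ^ 2) := by
    intro i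
    refine Integrable.mono' (eidE_int.const_mul (C ^ 2)) ((hcF i).pow 2).aestronglyMeasurable
      (ae_of_all _ fun w => ?_)
    rw [Real.norm_eq_abs, abs_pow]
    calc |pd i F w| ^ 2 ≤ (C * eidE w ^ 2) ^ 2 :=
          pow_le_pow_left₀ (abs_nonneg _) (h1 i w) 2
      _ = C ^ 2 * eidE w ^ 4 := by ring
  refine ⟨hint, ?_⟩
  have hR : Integrable fun w => F w * lap F w :=
    Continuous.integrable_of_hasCompactSupport (hF.continuous.mul hlc) hc.mul_left
  obtain ⟨D, hD, hchi⟩ := chi_pd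
  have hgreen : ∀ n : ℕ, (∑ i, ∫ w, chi n w * (pd i F w ^ 2)) +
      (∑ i, ∫ w, pd i F w * F w * pd i (chi n) w) = ∫ w, -(chi n w * (F w * lap F w)) := by
    intro n
    have hFF : ContDiff ℝ (⊤ : ℕ∞) fun w => F w * chi n w := hF.mul (chi_smooth n)
    have hFc : HasCompactSupport fun w => F w * chi n w := (chi_cs n).mul_left
    have hcd : ∀ i, HasCompactSupport (pd i (chi n)) := fun i => by
      have h := (chi_cs n).fderiv (𝕜 := ℝ)
      exact h.comp_left (g := fun L : (R3 →L[ℝ] ℝ) => L (Pi.single i 1)) (by simp)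
    have hcc : ∀ i, Continuous (pd i (chi n)) := fun i =>
      (eid_contDiff_pd (chi_smooth n) i).continuous
    have j1 : ∀ i, Integrable fun w => chi n w * (pd i F w ^ 2) := fun i =>
      Continuous.integrable_of_hasCompactSupport ((chi_smooth n).continuous.mul
        ((hcF i).pow 2)) (chi_cs n).mul_right
    have j2 : ∀ i, Integrable fun w => pd i F w * F w * pd i (chi n) w := fun i =>
      Continuous.integrable_of_hasCompactSupport (((hcF i).mul hF.continuous).mul (hcc i))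
        (hcd i).mul_left
    have j3 : ∀ i, Integrable fun w => pd i (pd i F) w * (F w * chi n w) := fun i =>
      Continuous.integrable_of_hasCompactSupport
        ((eid_contDiff_pd (eid_contDiff_pd hF i) i).continuous.mul hFF.continuous) hFc.mul_left
    have e1 : ∀ i, (∫ w, chi n w * (pd i F w ^ 2)) +
        ∫ w, pd i F w * F w * pd i (chi n) w = -∫ w, pd i (pd i F) w * (F w * chi n w) := by
      intro i
      rw [← eid_ibp i (eid_contDiff_pd hF i) hFF hFc, ← integral_add (j1 i) (j2 i)]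
      refine integral_congr_ae (ae_of_all _ fun w => ?_)
      change _ = pd i F w * pd i (fun w => F w * chi n w) w
      rw [eid_pd_mul (eid_diff hF) (eid_diff (chi_smooth n))]
      ring
    rw [← Finset.sum_add_distrib, Finset.sum_congr rfl fun i _ => e1 i, Finset.sum_neg_distrib,
      ← integral_finsetSum _ fun i _ => j3 i, ← integral_neg]
    refine integral_congr_ae (ae_of_all _ fun w => ?_)
    change -(∑ i, pd i (pd i F) w * (F w * chi n w)) = -(chi n w * (F w * lap F w))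
    rw [← Finset.sum_mul]
    have : lap F w = ∑ i, pd i (pd i F) w := rfl
    rw [this]
    ring
  have hcas : ∀ w : R3, ∀ᶠ n : ℕ in atTop, ‖w‖ < (n : ℝ) := fun w => by
    filter_upwards [eventually_gt_atTop ⌈‖w‖⌉₊] with n hn
    exact lt_of_le_of_lt (Nat.le_ceil _) (by exact_mod_cast hn)
  have hchi1 : ∀ w : R3, ∀ᶠ n : ℕ in atTop, chi n w = 1 := fun w => by
    filter_upwards [hcas w] with n hn
    exact chi_one (by linarith)
  have l1 : ∀ i, Tendsto (fun n : ℕ => ∫ w, chi n w * (pd i F w ^ 2)) atTop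
      (𝓝 (∫ w, pd i F w ^ 2)) := by
    intro i
    refine tendsto_integral_of_dominated_convergence (fun w => pd i F w ^ 2)
      (fun n => ((chi_smooth n).continuous.mul ((hcF i).pow 2)).aestronglyMeasurable) (hint i)
      (fun n => ae_of_all _ fun w => ?_) (ae_of_all _ fun w => ?_)
    · rw [Real.norm_eq_abs, abs_mul, abs_of_nonneg (chi_01 n w).1, abs_of_nonneg (sq_nonneg _)]
      exact mul_le_of_le_one_left (sq_nonneg _) (chi_01 n w).2
    · refine tendsto_const_nhds.congr' ?_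
      filter_upwards [hchi1 w] with n hn
      rw [hn, one_mul]
  have l3 : Tendsto (fun n : ℕ => ∫ w, -(chi n w * (F w * lap F w))) atTop
      (𝓝 (∫ w, -(F w * lap F w))) := by
    refine tendsto_integral_of_dominated_convergence (fun w => |F w * lap F w|)
      (fun n => ((chi_smooth n).continuous.mul
        (hF.continuous.mul hlc)).neg.aestronglyMeasurable) hR.abs
      (fun n => ae_of_all _ fun w => ?_) (ae_of_all _ fun w => ?_)
    · rw [Real.norm_eq_abs, abs_neg, abs_mul, abs_of_nonneg (chi_01 n w).1]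
      exact mul_le_of_le_one_left (abs_nonneg _) (chi_01 n w).2
    · refine tendsto_const_nhds.congr' ?_
      filter_upwards [hchi1 w] with n hn
      rw [hn, one_mul]
  have l2 : ∀ i, Tendsto (fun n : ℕ => ∫ w, pd i F w * F w * pd i (chi n) w) atTop (𝓝 0) := by
    intro i
    have h0' : (0 : ℝ) = ∫ _w : R3, (0 : ℝ) := by simp
    rw [h0']
    refine tendsto_integral_of_dominated_convergence (fun w => C * C * D * eidE w ^ 4)
      (fun n => (((hcF i).mul hF.continuous).mul
        (eid_contDiff_pd (chi_smooth n) i).continuous).aestronglyMeasurable)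
      (eidE_int.const_mul _) (fun n => ae_of_all _ fun w => ?_) (ae_of_all _ fun w => ?_)
    · rw [Real.norm_eq_abs, abs_mul, abs_mul]
      have hE := eidE_pos w
      calc |pd i F w| * |F w| * |pd i (chi n) w|
          ≤ (C * eidE w ^ 2) * (C * eidE w) * (D * eidE w) := by
            gcongr
            · exact h1 i w
            · exact h0 w
            · exact (hchi n i w).2
        _ = C * C * D * eidE w ^ 4 := by ring
    · have h1 : Tendsto (fun n : ℕ => |pd i F w * F w| * (D / ((n : ℝ) + 1))) atTop (𝓝 0) := by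
        have h2 : Tendsto (fun n : ℕ => D / ((n : ℝ) + 1)) atTop (𝓝 0) := by
          have := (tendsto_one_div_add_atTop_nhds_zero_nat (𝕜 := ℝ)).const_mul D
          simpa [div_eq_mul_inv] using this
        simpa using h2.const_mul |pd i F w * F w|
      refine squeeze_zero_norm (fun n => ?_) h1
      rw [Real.norm_eq_abs, abs_mul]
      gcongr
      exact (hchi n i w).1
  have hlim : Tendsto (fun n : ℕ => (∑ i, ∫ w, chi n w * (pd i F w ^ 2)) +
      (∑ i, ∫ w, pd i F w * F w * pd i (chi n) w)) atTop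
      (𝓝 ((∑ i, ∫ w, pd i F w ^ 2) + ∑ _i : Fin 3, (0 : ℝ))) :=
    (tendsto_finsetSum _ fun i _ => l1 i).add (tendsto_finsetSum _ fun i _ => l2 i)
  have hfin := tendsto_nhds_unique (hlim.congr hgreen) l3
  rw [Finset.sum_const_zero, add_zero] at hfin
  rw [hfin, integral_neg]

/-- the field of a divergence -/
theorem l2b (F : R3 → ℝ) (A : Fin 3 → R3 → ℝ) (hF : ContDiff ℝ (⊤ : ℕ∞) F) (C : ℝ)
    (h0 : ∀ w, |F w| ≤ C * eidE w) (h1 : ∀ i w, |pd i F w| ≤ C * eidE w ^ 2)
    (hA : ∀ m, ContDiff ℝ (⊤ : ℕ∞) (A m)) (hAc : ∀ m, HasCompactSupport (A m))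
    (hl : ∀ w, lap F w = -∑ m, pd m (A m) w) :
    (∀ i, Integrable (fun w => pd i F w ^ 2)) ∧
      ∑ i, ∫ w, pd i F w ^ 2 ≤ ∑ m, ∫ w, A m w ^ 2 := by
  have hpc : ∀ m, HasCompactSupport (pd m (A m)) := fun m => by
    have h := (hAc m).fderiv (𝕜 := ℝ)
    exact h.comp_left (g := fun L : (R3 →L[ℝ] ℝ) => L (Pi.single m 1)) (by simp)
  have hc : HasCompactSupport (lap F) := by
    have h2 : lap F = fun w => -((pd 0 (A 0) + pd 1 (A 1) + pd 2 (A 2)) w) := by
      funext w
      rw [hl w, Fin.sum_univ_three]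
      rfl
    rw [h2]
    exact (((hpc 0).add (hpc 1)).add (hpc 2)).comp_left (g := fun t : ℝ => -t) (by simp)
  obtain ⟨hint, hg⟩ := grn F hF C h0 h1 hc
  refine ⟨hint, ?_⟩
  have hpA : ∀ m, Continuous (pd m (A m)) := fun m => (eid_contDiff_pd (hA m) m).continuous
  have j1 : ∀ m, Integrable fun w => F w * pd m (A m) w := fun m =>
    Continuous.integrable_of_hasCompactSupport (hF.continuous.mul (hpA m)) (hpc m).mul_left
  have j2 : ∀ m, Integrable fun w => pd m F w * A m w := fun m =>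
    Continuous.integrable_of_hasCompactSupport
      ((eid_contDiff_pd hF m).continuous.mul (hA m).continuous) (hAc m).mul_left
  have j3 : ∀ m, Integrable fun w => A m w ^ 2 := fun m => by
    have : Integrable fun w => A m w * A m w :=
      Continuous.integrable_of_hasCompactSupport
        ((hA m).continuous.mul (hA m).continuous) (hAc m).mul_left
    refine this.congr (ae_of_all _ fun w => ?_)
    ring
  have e1 : -∫ w, F w * lap F w = -∑ m, ∫ w, pd m F w * A m w := by
    have h2 : ∀ w, F w * lap F w = -∑ m, F w * pd m (A m) w := by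
      intro w
      rw [hl w, ← Finset.mul_sum]
      ring
    simp only [h2]
    rw [integral_neg, integral_finsetSum _ fun m _ => j1 m, neg_neg]
    rw [Finset.sum_congr rfl fun m _ => eid_ibp m hF (hA m) (hAc m), Finset.sum_neg_distrib]
  have e2 : ∀ m, -(1 / 2 * (∫ w, pd m F w ^ 2) + 1 / 2 * ∫ w, A m w ^ 2) ≤
      ∫ w, pd m F w * A m w := by
    intro m
    rw [← integral_const_mul, ← integral_const_mul, ← integral_add ((hint m).const_mul _)
      ((j3 m).const_mul _), ← integral_neg]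
    refine integral_mono (((hint m).const_mul _).add ((j3 m).const_mul _)).neg (j2 m)
      fun w => ?_
    simp only
    nlinarith [sq_nonneg (pd m F w + A m w)]
  have e3 := Finset.sum_le_sum fun m (_ : m ∈ Finset.univ) => e2 m
  rw [Finset.sum_neg_distrib, Finset.sum_add_distrib, ← Finset.mul_sum, ← Finset.mul_sum] at e3
  rw [hg, e1] at *
  linarith

/-- second derivatives of the smeared potential -/
theorem ph2_bd (hPHA : ST_PHA) (hPHB : ST_PHB) (b : ℝ) (hb : 0 < b) : ∃ C : ℝ, 0 ≤ C ∧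
    ∀ (i m : Fin 3) (z : R3), |pd i (pd m (ph b)) z| ≤ C * eidE z ^ 2 := by
  have hsm := (hPHA b hb).1
  have hcont : ∀ i m : Fin 3, Continuous (pd i (pd m (ph b))) := fun i m =>
    (pd_smooth i _ (pd_smooth m _ hsm)).continuous
  have hcpt : IsCompact (Metric.closedBall (0 : R3) (b + 1)) := isCompact_closedBall _ _
  have hbd : ∀ i m : Fin 3, ∃ C : ℝ, ∀ z ∈ Metric.closedBall (0 : R3) (b + 1),
      ‖pd i (pd m (ph b)) z‖ ≤ C := fun i m =>
    hcpt.exists_bound_of_continuousOn (hcont i m).continuousOn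
  choose C1 hC1 using hbd
  have hS : ∀ i m, |C1 i m| ≤ ∑ i, ∑ m, |C1 i m| := by
    intro i m
    exact (Finset.single_le_sum (f := fun m => |C1 i m|) (fun _ _ => abs_nonneg _)
      (Finset.mem_univ m)).trans (Finset.single_le_sum (f := fun i => ∑ m, |C1 i m|)
      (fun _ _ => Finset.sum_nonneg fun _ _ => abs_nonneg _) (Finset.mem_univ i))
  have hS0 : 0 ≤ ∑ i : Fin 3, ∑ m : Fin 3, |C1 i m| :=
    Finset.sum_nonneg fun _ _ => Finset.sum_nonneg fun _ _ => abs_nonneg _
  refine ⟨(∑ i, ∑ m, |C1 i m|) * (b + 2) ^ 2 + 16, by positivity, fun i m z => ?_⟩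
  have hE := eidE_pos z
  have hn : 0 < 1 + ‖z‖ := by positivity
  rcases le_total ‖z‖ (b + 1) with h | h
  · have h2 := hC1 i m z (by rw [mem_closedBall_zero_iff]; exact h)
    rw [Real.norm_eq_abs] at h2
    have h3 : 1 ≤ (b + 2) * eidE z := by
      unfold eidE
      rw [← div_eq_mul_inv, le_div_iff₀ hn]
      linarith
    have h4 : 1 ≤ ((b + 2) * eidE z) ^ 2 := one_le_pow₀ h3
    calc |pd i (pd m (ph b)) z| ≤ ∑ i, ∑ m, |C1 i m| := h2.trans ((le_abs_self _).trans (hS i m))
      _ ≤ (∑ i, ∑ m, |C1 i m|) * ((b + 2) * eidE z) ^ 2 := le_mul_of_one_le_right hS0 h4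
      _ ≤ ((∑ i, ∑ m, |C1 i m|) * (b + 2) ^ 2 + 16) * eidE z ^ 2 := by
          have : 0 ≤ eidE z ^ 2 := sq_nonneg _
          nlinarith
  · have hz := norm_le_nr z
    have hz1 : 1 ≤ nr z := by linarith
    have hz0 : 0 < nr z := by linarith
    have hco : ∀ j : Fin 3, |z j| ≤ nr z := fun j => by
      have := norm_le_pi_norm z j
      rw [Real.norm_eq_abs] at this
      exact this.trans hz
    rw [Pool.Agent.Helper22.HV.fgz_ph2 hPHB b hb z (by linarith) i m]
    have k1 : |3 * z m * z i / nr z ^ 5| ≤ 3 / nr z ^ 3 := by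
      rw [abs_div, abs_mul, abs_mul, abs_of_pos (by norm_num : (0 : ℝ) < 3),
        abs_of_pos (by positivity : 0 < nr z ^ 5), div_le_div_iff₀ (by positivity) (by positivity)]
      have := mul_le_mul (hco m) (hco i) (abs_nonneg _) hz0.le
      calc 3 * |z m| * |z i| * nr z ^ 3 = 3 * (|z m| * |z i|) * nr z ^ 3 := by ring
        _ ≤ 3 * (nr z * nr z) * nr z ^ 3 := by gcongr
        _ = 3 * nr z ^ 5 := by ring
    have k2 : |(if i = m then (1 : ℝ) else 0) / nr z ^ 3| ≤ 1 / nr z ^ 3 := by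
      rw [abs_div, abs_of_pos (by positivity : 0 < nr z ^ 3)]
      gcongr
      split_ifs <;> simp
    have k3 : |3 * z m * z i / nr z ^ 5 - (if i = m then (1 : ℝ) else 0) / nr z ^ 3| ≤
        4 / nr z ^ 3 := by
      refine (abs_sub _ _).trans ?_
      have : 4 / nr z ^ 3 = 3 / nr z ^ 3 + 1 / nr z ^ 3 := by ring
      rw [this]
      exact add_le_add k1 k2
    refine k3.trans ?_
    have k4 : 1 / nr z ≤ 2 * eidE z := by
      unfold eidE
      rw [← div_eq_mul_inv, div_le_div_iff₀ hz0 hn]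
      linarith
    have k5 : 4 / nr z ^ 3 ≤ 4 * (1 / nr z) ^ 2 := by
      rw [div_pow, one_pow, mul_one_div]
      exact div_le_div_of_nonneg_left (by norm_num) (by positivity)
        (pow_le_pow_right₀ hz1 (by norm_num))
    have k6 : (1 / nr z) ^ 2 ≤ (2 * eidE z) ^ 2 := pow_le_pow_left₀ (by positivity) k4 2
    have k7 : 0 ≤ (∑ i, ∑ m, |C1 i m|) * (b + 2) ^ 2 * eidE z ^ 2 := by positivity
    nlinarith

/-- decay of combinations -/
theorem comb_bd {ι : Type} [Fintype ι] (f : R3 → ℝ) (C : ℝ) (hC : 0 ≤ C)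
    (hf : ∀ z, |f z| ≤ C * eidE z ^ 2) (c : ι → ℝ) (P : ι → R3) :
    ∃ C' : ℝ, 0 ≤ C' ∧ ∀ w, |comb f c P w| ≤ C' * eidE w ^ 2 := by
  refine ⟨∑ k, |c k| * (C * (1 + ‖P k‖) ^ 2), Finset.sum_nonneg fun k _ => by positivity,
    fun w => ?_⟩
  unfold comb
  refine (Finset.abs_sum_le_sum_abs _ _).trans ?_
  rw [Finset.sum_mul]
  refine Finset.sum_le_sum fun k _ => ?_
  rw [abs_mul, mul_assoc]
  refine mul_le_mul_of_nonneg_left ?_ (abs_nonneg _)
  refine (hf _).trans ?_
  have h2 := eidE_tr (P k) w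
  have h3 := eidE_pos (w - P k)
  have h4 : eidE (w - P k) ^ 2 ≤ ((1 + ‖P k‖) * eidE w) ^ 2 := by gcongr
  calc C * eidE (w - P k) ^ 2 ≤ C * ((1 + ‖P k‖) * eidE w) ^ 2 := by gcongr
    _ = C * (1 + ‖P k‖) ^ 2 * eidE w ^ 2 := by ring

/-- the potential of the dipoles `a k` at `x k` -/
noncomputable def FP {n : ℕ} (b : ℝ) (x : Cf n) (a : Fin n → R3) (w : R3) : ℝ :=
  ∑ m, comb (pd m (ph b)) (fun k => a k m) x w

theorem FP_smooth (hPHA : ST_PHA) {n : ℕ} (b : ℝ) (hb : 0 < b) (x : Cf n) (a : Fin n → R3) :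
    ContDiff ℝ (⊤ : ℕ∞) (FP b x a) := by
  unfold FP
  exact ContDiff.sum fun m _ => comb_smooth _ _ _ (pd_smooth m _ (hPHA b hb).1)

theorem FP_pd (hPHA : ST_PHA) {n : ℕ} (b : ℝ) (hb : 0 < b) (x : Cf n) (a : Fin n → R3)
    (i : Fin 3) : pd i (FP b x a) =
      fun w => ∑ m, comb (pd i (pd m (ph b))) (fun k => a k m) x w := by
  funext w
  unfold FP
  rw [pd_sum3 i (fun m => comb (pd m (ph b)) (fun k => a k m) x)
    (fun m => comb_smooth _ _ _ (pd_smooth m _ (hPHA b hb).1))]
  refine Finset.sum_congr rfl fun m _ => ?_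
  rw [comb_pd _ _ _ (pd_smooth m _ (hPHA b hb).1)]

theorem FP_lap (hPHA : ST_PHA) (hPHB : ST_PHB) (hPHC : ST_PHC) {n : ℕ} (b : ℝ) (hb : 0 < b)
    (x : Cf n) (a : Fin n → R3) (w : R3) :
    lap (FP b x a) w = -∑ m, pd m (comb (et b) (fun k => a k m) x) w := by
  have hsm := (hPHA b hb).1
  have hes := (hPHC.2.2.2 b hb).1
  have h1 : lap (FP b x a) w = ∑ m, lap (comb (pd m (ph b)) (fun k => a k m) x) w := by
    unfold lap
    rw [Finset.sum_comm]
    refine Finset.sum_congr rfl fun i _ => ?_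
    rw [FP_pd hPHA b hb x a i]
    rw [pd_sum3 i (fun m => comb (pd i (pd m (ph b))) (fun k => a k m) x)
      (fun m => comb_smooth _ _ _ (pd_smooth i _ (pd_smooth m _ hsm)))]
    refine Finset.sum_congr rfl fun m _ => ?_
    rw [comb_pd _ _ _ (pd_smooth m _ hsm)]
  rw [h1, ← Finset.sum_neg_distrib]
  refine Finset.sum_congr rfl fun m _ => ?_
  rw [comb_lap _ _ _ (pd_smooth m _ hsm), comb_pd _ _ _ hes]
  unfold comb
  rw [← Finset.sum_neg_distrib]
  refine Finset.sum_congr rfl fun k _ => ?_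
  rw [lap_pd (ph b) hsm m]
  have h2 : lap (ph b) = fun y => -et b y := funext fun y => (hPHB b hb).1 y
  rw [h2]
  have h3 : pd m (fun y => -et b y) (w - x k) = -pd m (et b) (w - x k) := by
    unfold pd
    rw [fderiv_fun_neg]
    simp
  rw [h3]
  ring

theorem comb_et_cs (hPHC : ST_PHC) {n : ℕ} (b : ℝ) (hb : 0 < b) (c : Fin n → ℝ) (x : Cf n) :
    HasCompactSupport (comb (et b) c x) := by
  refine HasCompactSupport.intro (isCompact_closedBall (0 : R3) ((∑ k, ‖x k‖) + b)) fun w hw => ?_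
  rw [mem_closedBall_zero_iff, not_le] at hw
  unfold comb
  refine Finset.sum_eq_zero fun k _ => ?_
  have h1 : ‖x k‖ ≤ ∑ k, ‖x k‖ := Finset.single_le_sum (f := fun k => ‖x k‖)
    (fun _ _ => norm_nonneg _) (Finset.mem_univ k)
  have h2 : ‖w‖ ≤ ‖w - x k‖ + ‖x k‖ := by
    have := norm_add_le (w - x k) (x k)
    simpa using this
  have h3 := norm_le_nr (w - x k)
  rw [(hPHC.2.2.2 b hb).2.2.1 (w - x k) (by linarith), mul_zero]

/-- square integral of the field of the dipoles -/
theorem field_l2 (hPHA : ST_PHA) (hPHB : ST_PHB) (hPHC : ST_PHC) {n : ℕ} (b : ℝ) (hb : 0 < b)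
    (x : Cf n) (a : Fin n → R3) :
    (∀ i, Integrable (fun w => pd i (FP b x a) w ^ 2)) ∧
      ∑ i, ∫ w, pd i (FP b x a) w ^ 2 ≤
        ∑ m, ∫ w, comb (et b) (fun k => a k m) x w ^ 2 := by
  obtain ⟨C2, hC20, hC2⟩ := ph2_bd hPHA hPHB b hb
  have b0 : ∀ m : Fin 3, ∃ C' : ℝ, 0 ≤ C' ∧ ∀ w,
      |comb (pd m (ph b)) (fun k => a k m) x w| ≤ C' * eidE w ^ 2 := fun m =>
    comb_bd (pd m (ph b)) (16 / b ^ 2 + 4) (by positivity) (fun z => eid_pd_bd hPHB hb m z) _ _
  have b1 : ∀ i m : Fin 3, ∃ C' : ℝ, 0 ≤ C' ∧ ∀ w,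
      |comb (pd i (pd m (ph b))) (fun k => a k m) x w| ≤ C' * eidE w ^ 2 := fun i m =>
    comb_bd (pd i (pd m (ph b))) C2 hC20 (fun z => hC2 i m z) _ _
  choose D0 hD0 hD0' using b0
  choose D1 hD1 hD1' using b1
  have s0 : 0 ≤ ∑ m, D0 m := Finset.sum_nonneg fun m _ => hD0 m
  have s1 : 0 ≤ ∑ i, ∑ m, D1 i m := Finset.sum_nonneg fun i _ => Finset.sum_nonneg fun m _ => hD1 i m
  refine l2b (FP b x a) (fun m => comb (et b) (fun k => a k m) x) (FP_smooth hPHA b hb x a)
    ((∑ m, D0 m) + ∑ i, ∑ m, D1 i m) ?_ ?_ ?_ ?_ (FP_lap hPHA hPHB hPHC b hb x a)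
  · intro w
    have hE := eidE_pos w
    have hE1 := eidE_le_one w
    unfold FP
    calc |∑ m, comb (pd m (ph b)) (fun k => a k m) x w|
        ≤ ∑ m, |comb (pd m (ph b)) (fun k => a k m) x w| := Finset.abs_sum_le_sum_abs _ _
      _ ≤ ∑ m, D0 m * eidE w ^ 2 := Finset.sum_le_sum fun m _ => hD0' m w
      _ = (∑ m, D0 m) * eidE w ^ 2 := by rw [Finset.sum_mul]
      _ ≤ (∑ m, D0 m) * eidE w := by
          refine mul_le_mul_of_nonneg_left ?_ s0
          nlinarith
      _ ≤ ((∑ m, D0 m) + ∑ i, ∑ m, D1 i m) * eidE w :=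
          mul_le_mul_of_nonneg_right (by linarith) hE.le
  · intro i w
    rw [FP_pd hPHA b hb x a i]
    have hE := eidE_pos w
    calc |∑ m, comb (pd i (pd m (ph b))) (fun k => a k m) x w|
        ≤ ∑ m, |comb (pd i (pd m (ph b))) (fun k => a k m) x w| := Finset.abs_sum_le_sum_abs _ _
      _ ≤ ∑ m, D1 i m * eidE w ^ 2 := Finset.sum_le_sum fun m _ => hD1' i m w
      _ = (∑ m, D1 i m) * eidE w ^ 2 := by rw [Finset.sum_mul]
      _ ≤ ((∑ m, D0 m) + ∑ i, ∑ m, D1 i m) * eidE w ^ 2 := by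
          refine mul_le_mul_of_nonneg_right ?_ (sq_nonneg _)
          have := Finset.single_le_sum (f := fun i => ∑ m, D1 i m)
            (fun i _ => Finset.sum_nonneg fun m _ => hD1 i m) (Finset.mem_univ i)
          linarith
  · intro m
    exact comb_smooth _ _ _ (hPHC.2.2.2 b hb).1
  · intro m
    exact comb_et_cs hPHC b hb _ x

end Pool.Agent.Helper43.HV
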